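import Mathlib
import Pool.Agent.N773.SC.D
import Pool.Agent.N248.LQ.G
set_option autoImplicit false

/-!
# Stein's restriction conjecture for the sphere tested on convolutions, at the endpoint

`ft f ξ = ∫_{S^{n-1}} e^{-2πi x·ξ} f(x) dσ(x)`. By duality the conjecture, that `ft f ∈ L^q` for
every bounded `f` and every `q > 2n/(n-1)`, is the inequality

  `∫ |ft f|² W ≤ C_r ‖f‖_∞² ‖W‖_{L^r}`   for all `W ≥ 0` and all `r < n` (`r = q/(q-2)`).

At the endpoint `r = n` the inequality fails for general `W` (already for `f = 1`). The theorem below proves the endpoint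
inequality, for all `n ≥ 2`, all bounded `f` and ALL convolutions `W = F * G`, with the norm
`‖F‖_p ‖G‖_p`, `p = 2n/(n+1)`, which by Young's inequality majorises `‖F * G‖_n`:

  `∫ |ft f|² (F * G) ≤ C ‖f‖_∞² ‖F‖_{2n/(n+1)} ‖G‖_{2n/(n+1)}`.

Equivalently: convolution with `|ft f|²` maps `L^(2n/(n+1))` to its dual `L^(2n/(n-1))`, which is
what the endpoint of the conjecture would give. More generally `F` and `G` may be functions on
`ℝ^m`, `2 ≤ m ≤ n`, composed with the orthogonal projection onto any `m`-dimensional subspace.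

Consequences:
* sets of small doubling: `∫_B |ft f|² ≤ C (|B + B|/|B|)^((n+1)/(2n)) |B|^(1/n) ‖f‖_∞²`, and the same
  for cylinders over sets in `ℝ^m`;
* superlevel sets: every measurable subset `B` of `{|ft f| ≥ λ}` with additive energy at least
  `δ |B|³` satisfies the endpoint bound `|B| ≤ C δ^(-(n+1)/(2(n-1))) (‖f‖_∞/λ)^(2n/(n-1))`.
-/

namespace Pool.Agent.N773.Shelf.ConvolutionEndpoint

open MeasureTheory Set Metric Complex
open scoped ENNReal NNReal RealInnerProductSpace Pointwise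

abbrev E (n : ℕ) := EuclideanSpace ℝ (Fin n)

/-- surface measure on the unit sphere -/
noncomputable def sigma (n : ℕ) : Measure (sphere (0 : E n) 1) := (volume : Measure (E n)).toSphere

/-- the Fourier transform of the measure `f dσ` -/
noncomputable def ft {n : ℕ} (f : sphere (0 : E n) 1 → ℂ) (ξ : E n) : ℂ :=
  ∫ x, Complex.exp (-(2 * Real.pi * ⟪(x : E n), ξ⟫ : ℝ) * I) * f x ∂(sigma n)

/-- the norm of `f` in `L^∞(σ)` -/
noncomputable def supNorm {n : ℕ} (f : sphere (0 : E n) 1 → ℂ) : ℝ≥0∞ := eLpNorm f ∞ (sigma n)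

/-- the coordinates `(⟪v_i, ξ⟫)_i` of `ξ` with respect to the vectors `v_i` -/
noncomputable def coords {n m : ℕ} (v : Fin m → E n) (ξ : E n) : E m :=
  WithLp.toLp 2 fun i => ⟪v i, ξ⟫

/-- the convolution `F * G` -/
noncomputable def conv {m : ℕ} (F G : E m → ℝ≥0∞) (u : E m) : ℝ≥0∞ := ∫⁻ y, F y * G (u - y)

/-- the norm of `F ≥ 0` in `L^p(ℝ^m)`, `p = 2m/(m+1)` -/
noncomputable def dualNorm {m : ℕ} (F : E m → ℝ≥0∞) : ℝ≥0∞ :=
  (∫⁻ u, F u ^ (2 * (m : ℝ) / (m + 1))) ^ (((m : ℝ) + 1) / (2 * m))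

/-- the additive energy `∫ |{y : y ∈ A, w - y ∈ B}|² dw` -/
noncomputable def addEnergy {n : ℕ} (A B : Set (E n)) : ℝ≥0∞ :=
  ∫⁻ w, volume {y | y ∈ A ∧ w - y ∈ B} ^ 2

/-- the endpoint inequality for all convolutions of functions of the coordinates `coords v` -/
def Convolution {n m : ℕ} (C : ℝ≥0) (f : sphere (0 : E n) 1 → ℂ) (v : Fin m → E n) : Prop :=
  ∀ F G : E m → ℝ≥0∞, Measurable F → Measurable G →
    ∫⁻ ξ, ‖ft f ξ‖ₑ ^ 2 * conv F G (coords v ξ) ≤ C * supNorm f ^ 2 * dualNorm F * dualNorm G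

/-- the endpoint inequality for small sumsets -/
def Sumsets {n m : ℕ} (C : ℝ≥0) (f : sphere (0 : E n) 1 → ℂ) (v : Fin m → E n) : Prop :=
  ∀ A B : Set (E m), MeasurableSet A → MeasurableSet B →
    volume A ^ (((m : ℝ) - 1) / (2 * m)) * ∫⁻ ξ in {ξ | coords v ξ ∈ B}, ‖ft f ξ‖ₑ ^ 2 ≤
      C * supNorm f ^ 2 * volume (A + B) ^ (((m : ℝ) + 1) / (2 * m))

/-- the endpoint inequality for subsets of superlevel sets with large additive energy -/
def LargeEnergy {n : ℕ} (C : ℝ≥0) (f : sphere (0 : E n) 1 → ℂ) : Prop :=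
  ∀ (lam : ℝ) (B : Set (E n)), 0 ≤ lam → MeasurableSet B → (∀ ξ ∈ B, lam ≤ ‖ft f ξ‖) →
    (∀ A : Set (E n), MeasurableSet A →
      ENNReal.ofReal lam ^ 2 * addEnergy A B ^ (((n : ℝ) + 1) / (2 * n)) ≤
        C * supNorm f ^ 2 * (volume A ^ (((n : ℝ) + 3) / (2 * n)) * volume B ^ (1 / (n : ℝ)))) ∧
    (∀ δ : ℝ≥0, volume B ≠ ∞ → δ * volume B ^ 3 ≤ addEnergy B B →
      ENNReal.ofReal lam ^ 2 * (δ : ℝ≥0∞) ^ (((n : ℝ) + 1) / (2 * n)) *
        volume B ^ (((n : ℝ) - 1) / n) ≤ C * supNorm f ^ 2)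

open Pool.Agent.N773.SC Pool.Agent.N248.SD in
/-- the master inequality in the form used below -/
lemma master (n m : ℕ) (hm : 2 ≤ m) (hmn : m ≤ n) :
    ∃ C : ℝ≥0, C ≠ 0 ∧ ∀ (f : sphere (0 : E n) 1 → ℂ), MemLp f ∞ (sigma n) →
      ∀ v : Fin m → E n, Orthonormal ℝ v → Convolution C f v := by
  obtain ⟨n', rfl⟩ : ∃ n', n = n' + 1 := ⟨n - 1, by omega⟩
  obtain ⟨k, hmk⟩ : ∃ k, m + k = n' + 1 := ⟨n' + 1 - m, by omega⟩
  obtain ⟨K, hK, hmain⟩ := Pool.Agent.N773.SC.main (n := n') (m := m) (k := k) hm (by omega) hmk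
  refine ⟨K.toNNReal + 1, by positivity, ?_⟩
  intro f hf v hv F G hF hG
  have hC : (((K.toNNReal + 1 : ℝ≥0)) : ℝ≥0∞) = K + 1 := by
    rw [ENNReal.coe_add, ENNReal.coe_toNNReal hK, ENNReal.coe_one]
  rw [hC]
  -- the basis
  obtain ⟨b, hb⟩ : ∃ b : OrthonormalBasis (Fin m ⊕ Fin k) ℝ (EuclideanSpace ℝ (Fin (n' + 1))),
      ∀ i, b (Sum.inl i) = v i := by
    have hcard : Module.finrank ℝ (EuclideanSpace ℝ (Fin (n' + 1))) =
        Fintype.card (Fin m ⊕ Fin k) := by
      rw [finrank_euclideanSpace, Fintype.card_fin, Fintype.card_sum, Fintype.card_fin,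
        Fintype.card_fin, hmk]
    have hv' : Orthonormal ℝ ((range (Sum.inl : Fin m → Fin m ⊕ Fin k)).domRestrict
        (Sum.elim v (fun _ => (0 : EuclideanSpace ℝ (Fin (n' + 1)))))) := by
      have h1 := hv.comp (fun s : range (Sum.inl : Fin m → Fin m ⊕ Fin k) =>
        s.2.choose) (by
          intro s t hst
          have a1 := s.2.choose_spec
          have a2 := t.2.choose_spec
          simp only at hst
          rw [hst] at a1
          exact Subtype.ext (a1.symm.trans a2))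
      convert h1 using 1
      ext1 s
      exact (congrArg (Sum.elim v fun _ => (0 : EuclideanSpace ℝ (Fin (n' + 1))))
        s.2.choose_spec).symm
    obtain ⟨b, hb⟩ := hv'.exists_orthonormalBasis_extension_of_card_eq hcard
    exact ⟨b, fun i => by rw [hb _ (mem_range_self i)]; rfl⟩
  have hco : ∀ x, coords v x = pr b x := by
    intro x
    unfold coords pr
    simp_rw [hb]
  set N : ℝ≥0∞ := supNorm f with hN
  have hNt : N ≠ ∞ := hf.2.ne
  -- a measurable representative
  obtain ⟨f', hf'm, hff'⟩ := hf.1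
  have hext : ∀ x, ft f x = ft f' x := by
    intro x
    unfold ft
    refine integral_congr_ae ?_
    filter_upwards [hff'] with ξ hξ
    rw [hξ]
  have hN' : eLpNorm f' ∞ (sigma (n' + 1)) = N := (eLpNorm_congr_ae hff').symm
  rcases eq_or_ne N 0 with h0 | h0
  · have hz : f' =ᵐ[sigma (n' + 1)] 0 := by
      rw [h0] at hN'
      exact (eLpNorm_eq_zero_iff hf'm.aestronglyMeasurable (by simp)).1 hN'
    have : ∀ x, ft f x = 0 := by
      intro x
      rw [hext]
      unfold ft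
      have : ∀ᵐ ξ : sphere (0 : E (n' + 1)) 1 ∂(sigma (n' + 1)), Complex.exp (-(2 * Real.pi *
          ⟪(ξ : E (n' + 1)), x⟫ : ℝ) * I) * f' ξ = 0 := by
        filter_upwards [hz] with ξ hξ
        rw [hξ]; simp
      rw [integral_congr_ae this, integral_zero]
    simp [this]
  set M : ℝ := N.toReal with hM
  have hM0 : 0 < M := ENNReal.toReal_pos h0 hNt
  have hMN : N = ENNReal.ofReal M := (ENNReal.ofReal_toReal hNt).symm
  set φ : sphere (0 : E (n' + 1)) 1 → ℂ := fun x => (M : ℂ)⁻¹ * f' x with hφ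
  have hφm : StronglyMeasurable φ := hf'm.const_mul _
  have hbd : ∀ᵐ x ∂(sigma (n' + 1)), ‖φ x‖ ≤ 1 := by
    have h1 : ∀ᵐ x ∂(sigma (n' + 1)), ‖f' x‖ₑ ≤ N := by
      rw [← hN', eLpNorm_exponent_top]
      exact ae_le_eLpNormEssSup
    filter_upwards [h1] with x hx
    rw [hφ, norm_mul, norm_inv, Complex.norm_real, Real.norm_of_nonneg hM0.le,
      inv_mul_le_iff₀ hM0, mul_one]
    rw [hMN, ← ofReal_norm, ENNReal.ofReal_le_ofReal_iff hM0.le] at hx
    exact hx
  have hft : ∀ x, ‖ft f x‖ₑ ^ 2 = N ^ 2 * ‖Pool.Agent.N773.SC.ft φ x‖ₑ ^ 2 := by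
    intro x
    have h1 : Pool.Agent.N773.SC.ft φ x = (M : ℂ)⁻¹ * ft f x := by
      rw [hext]
      unfold Pool.Agent.N773.SC.ft ft
      rw [← integral_const_mul]
      refine integral_congr_ae (Filter.Eventually.of_forall fun ξ => ?_)
      simp only [hφ]
      ring
    have h2 : ft f x = (M : ℂ) * Pool.Agent.N773.SC.ft φ x := by
      rw [h1, ← mul_assoc, mul_inv_cancel₀ (by exact_mod_cast hM0.ne'), one_mul]
    rw [h2, enorm_mul, mul_pow]
    congr 2
    rw [← ofReal_norm, Complex.norm_real, Real.norm_of_nonneg hM0.le, hMN]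
  have h3 := hmain b φ hφm hbd F G hF hG
  have hnr : ∀ H : E m → ℝ≥0∞, nr H = dualNorm H := by
    intro H
    unfold nr dualNorm pe
    rw [one_div_div]
  rw [hnr, hnr] at h3
  have h4 : ∀ ξ, ‖ft f ξ‖ₑ ^ 2 * conv F G (coords v ξ) =
      N ^ 2 * (‖Pool.Agent.N773.SC.ft φ ξ‖ₑ ^ 2 * cv F G (pr b ξ)) := by
    intro ξ
    rw [hft, hco, mul_assoc]
    rfl
  simp_rw [h4]
  have hcm : Measurable (cv F G) := by
    have : Measurable fun z : E m × E m => F z.2 * G (z.1 - z.2) :=
      (hF.comp measurable_snd).mul (hG.comp (measurable_fst.sub measurable_snd))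
    exact this.lintegral_prod_right'
  have hgm : Measurable fun ξ : E (n' + 1) => ‖Pool.Agent.N773.SC.ft φ ξ‖ₑ ^ 2 *
      cv F G (pr b ξ) :=
    ((ft_meas φ hφm).enorm.pow_const 2).mul (hcm.comp (pr_cont b).measurable)
  rw [lintegral_const_mul _ hgm]
  calc N ^ 2 * ∫⁻ ξ, ‖Pool.Agent.N773.SC.ft φ ξ‖ₑ ^ 2 * cv F G (pr b ξ)
      ≤ N ^ 2 * (K * dualNorm F * dualNorm G) := mul_le_mul' le_rfl h3
    _ ≤ N ^ 2 * ((K + 1) * dualNorm F * dualNorm G) := by
        gcongr
        exact le_self_add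
    _ = _ := by ring

open Pool.Agent.N773.SC Pool.Agent.N248.SD Pool.Agent.N248.LQ in
/-- small sumsets -/
lemma sumsets {n m : ℕ} (hm : 2 ≤ m) (C : ℝ≥0) (hC : C ≠ 0) (f : sphere (0 : E n) 1 → ℂ)
    (v : Fin m → E n) (h : Convolution C f v) : Sumsets C f v := by
  intro A B hA hB
  have hm' : (2 : ℝ) ≤ m := by exact_mod_cast hm
  have hm0 : (0 : ℝ) < m := by linarith
  have hm1 : (0 : ℝ) < (m : ℝ) - 1 := by linarith
  have hα : (0 : ℝ) < ((m : ℝ) + 1) / (2 * m) := by positivity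
  have hs : (0 : ℝ) < 2 * (m : ℝ) / (m + 1) := by positivity
  have hC' : (C : ℝ≥0∞) ≠ 0 := by exact_mod_cast hC
  have hcoord : Measurable (coords v) := by
    unfold coords
    refine ((PiLp.continuous_toLp 2 _).comp (continuous_pi fun i => ?_)).measurable
    fun_prop
  rcases eq_or_ne (supNorm f) 0 with h0 | h0
  · -- the transform vanishes
    have hz : f =ᵐ[sigma n] 0 := by
      by_cases hfm : AEStronglyMeasurable f (sigma n)
      · exact (eLpNorm_eq_zero_iff hfm (by simp)).1 h0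
      · have := eLpNormEssSup_eq_zero_iff.1 (by
          unfold supNorm at h0; rw [eLpNorm_exponent_top] at h0; exact h0)
        exact this
    have : ∀ x, ft f x = 0 := by
      intro x
      unfold ft
      have : ∀ᵐ ξ : sphere (0 : E n) 1 ∂(sigma n), Complex.exp (-(2 * Real.pi *
          ⟪(ξ : E n), x⟫ : ℝ) * I) * f ξ = 0 := by
        filter_upwards [hz] with ξ hξ
        rw [hξ]; simp
      rw [integral_congr_ae this, integral_zero]
    simp [this]
  rcases B.eq_empty_or_nonempty with hBe | ⟨b₀, hb₀⟩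
  · rw [hBe]; simp
  rcases eq_or_ne (volume (A + B)) ∞ with hi | hi
  · rw [hi, ENNReal.top_rpow_of_pos hα, ENNReal.mul_top (mul_ne_zero hC' (pow_ne_zero 2 h0))]
    exact le_top
  have hAi : volume A ≠ ∞ := by
    refine ne_top_of_le_ne_top hi ?_
    have h1 : A = (fun x => x + b₀) ⁻¹' ((fun x => x + b₀) '' A) :=
      (preimage_image_eq A (add_left_injective b₀)).symm
    have h2 : volume A = volume ((fun x => x + b₀) '' A) := by
      conv_lhs => rw [h1]
      exact measure_preimage_add_right _ _ _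
    rw [h2]
    refine measure_mono ?_
    rintro _ ⟨a, ha, rfl⟩
    exact add_mem_add ha hb₀
  rcases eq_or_ne (volume A) 0 with hA0 | hA0
  · rw [hA0, ENNReal.zero_rpow_of_pos (by positivity), zero_mul]
    exact zero_le
  set S : Set (E m) := toMeasurable volume (A + B) with hS
  have hSv : volume S = volume (A + B) := measure_toMeasurable _
  have hSm : MeasurableSet S := measurableSet_toMeasurable _ _
  have hnm : MeasurableSet (-A) := hA.neg
  have h1 := h ((-A).indicator 1) (S.indicator 1) (measurable_one.indicator hnm)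
    (measurable_one.indicator hSm)
  unfold dualNorm at h1
  rw [ind_pow (-A) hnm _ hs, ind_pow S hSm _ hs, hSv, Measure.measure_neg] at h1
  have hlow : ∀ u ∈ B, volume A ≤ conv ((-A).indicator (1 : E m → ℝ≥0∞)) (S.indicator 1) u := by
    intro u hu
    unfold conv
    rw [← Measure.measure_neg, ← lintegral_indicator_one hnm]
    refine lintegral_mono fun y => ?_
    by_cases hy : y ∈ -A
    · have h2 : u - y ∈ S := by
        refine subset_toMeasurable _ _ ?_
        have h3 : -y ∈ A := hy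
        have := add_mem_add h3 hu
        rwa [neg_add_eq_sub] at this
      rw [indicator_of_mem hy, indicator_of_mem h2]
      simp
    · rw [indicator_of_notMem hy]; exact zero_le
  have hBm : MeasurableSet {ξ | coords v ξ ∈ B} := hcoord hB
  have h2 : volume A * ∫⁻ ξ in {ξ | coords v ξ ∈ B}, ‖ft f ξ‖ₑ ^ 2 ≤
      ∫⁻ ξ, ‖ft f ξ‖ₑ ^ 2 * conv ((-A).indicator 1) (S.indicator 1) (coords v ξ) := by
    rw [← lintegral_indicator hBm, ← lintegral_const_mul' _ _ hAi]
    refine lintegral_mono fun ξ => ?_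
    by_cases hξ : ξ ∈ {ξ | coords v ξ ∈ B}
    · rw [indicator_of_mem hξ, mul_comm]
      exact mul_le_mul' le_rfl (hlow _ hξ)
    · rw [indicator_of_notMem hξ, mul_zero]; exact zero_le
  have h3 := h2.trans h1
  have hp0 : volume A ^ (((m : ℝ) + 1) / (2 * m)) ≠ 0 := by
    rw [Ne, ENNReal.rpow_eq_zero_iff]
    push Not
    exact ⟨fun h => absurd h hA0, fun h => absurd h hAi⟩
  have hpt : volume A ^ (((m : ℝ) + 1) / (2 * m)) ≠ ∞ := ENNReal.rpow_ne_top_of_nonneg hα.le hAi
  rw [← ENNReal.mul_le_mul_iff_left hp0 hpt]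
  have e2 : volume A ^ (((m : ℝ) - 1) / (2 * m)) * volume A ^ (((m : ℝ) + 1) / (2 * m)) =
      volume A := by
    rw [← ENNReal.rpow_add _ _ hA0 hAi]
    have : ((m : ℝ) - 1) / (2 * m) + ((m : ℝ) + 1) / (2 * m) = 1 := by field_simp; ring
    rw [this, ENNReal.rpow_one]
  calc volume A ^ (((m : ℝ) - 1) / (2 * m)) * (∫⁻ ξ in {ξ | coords v ξ ∈ B}, ‖ft f ξ‖ₑ ^ 2) *
        volume A ^ (((m : ℝ) + 1) / (2 * m))
      = (volume A ^ (((m : ℝ) - 1) / (2 * m)) * volume A ^ (((m : ℝ) + 1) / (2 * m))) *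
        ∫⁻ ξ in {ξ | coords v ξ ∈ B}, ‖ft f ξ‖ₑ ^ 2 := by ring
    _ = volume A * ∫⁻ ξ in {ξ | coords v ξ ∈ B}, ‖ft f ξ‖ₑ ^ 2 := by rw [e2]
    _ ≤ _ := h3
    _ = _ := by ring

open Pool.Agent.N773.SC Pool.Agent.N248.SD Pool.Agent.N248.LQ in
/-- large additive energy -/
lemma largeEnergy {n : ℕ} (hn : 2 ≤ n) (C : ℝ≥0) (hC : C ≠ 0) (f : sphere (0 : E n) 1 → ℂ)
    (hf : MemLp f ∞ (sigma n))
    (h : Convolution C f (fun i : Fin n => (EuclideanSpace.basisFun (Fin n) ℝ) i)) :
    LargeEnergy C f := by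
  intro lam B hlam hB hlev
  have hn' : (2 : ℝ) ≤ n := by exact_mod_cast hn
  have hn0 : (0 : ℝ) < n := by linarith
  have hn1 : (0 : ℝ) < (n : ℝ) - 1 := by linarith
  have hC' : (C : ℝ≥0∞) ≠ 0 := by exact_mod_cast hC
  have hNt : supNorm f ≠ ∞ := hf.2.ne
  have hen : ∀ A : Set (E n), addEnergy A B = ∫⁻ w, rep A B w ^ 2 := fun A => rfl
  have hco : ∀ ξ : E n, coords (fun i : Fin n => (EuclideanSpace.basisFun (Fin n) ℝ) i) ξ = ξ := by
    intro ξ
    ext i
    simp [coords, EuclideanSpace.inner_single_left]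
  -- measurability of the kernel
  obtain ⟨f', hf'm, hff'⟩ := hf.1
  have hKm : Measurable fun ξ => ‖ft f ξ‖ₑ ^ 2 := by
    have : ft f = Pool.Agent.N773.SC.ft f' := by
      ext x
      unfold ft Pool.Agent.N773.SC.ft
      refine integral_congr_ae ?_
      filter_upwards [hff'] with ξ hξ
      rw [hξ]
    rw [this]
    exact (ft_meas f' hf'm).enorm.pow_const 2
  have hlev2 : ∀ x ∈ B, ENNReal.ofReal lam ^ 2 ≤ ‖ft f x‖ₑ ^ 2 := by
    intro x hx
    rw [← ofReal_norm]
    exact pow_le_pow_left' (ENNReal.ofReal_le_ofReal (hlev x hx)) 2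
  have hfirst : ∀ A : Set (E n), MeasurableSet A →
      ENNReal.ofReal lam ^ 2 * addEnergy A B ^ (((n : ℝ) + 1) / (2 * n)) ≤
        C * supNorm f ^ 2 * (volume A ^ (((n : ℝ) + 3) / (2 * n)) * volume B ^ (1 / (n : ℝ))) := by
    intro A hA
    rcases eq_or_ne (supNorm f) 0 with h0 | h0
    · have hz : f =ᵐ[sigma n] 0 := (eLpNorm_eq_zero_iff hf.1 (by simp)).1 h0
      have hft0 : ∀ x, ft f x = 0 := by
        intro x
        unfold ft
        have : ∀ᵐ ξ : sphere (0 : E n) 1 ∂(sigma n), Complex.exp (-(2 * Real.pi *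
            ⟪(ξ : E n), x⟫ : ℝ) * I) * f ξ = 0 := by
          filter_upwards [hz] with ξ hξ
          rw [hξ]; simp
        rw [integral_congr_ae this, integral_zero]
      rcases B.eq_empty_or_nonempty with hBe | ⟨b₀, hb₀⟩
      · have : addEnergy A B = 0 := by
          unfold addEnergy
          simp [hBe]
        rw [this, ENNReal.zero_rpow_of_pos (by positivity), mul_zero]
        exact zero_le
      · have h1 := hlev b₀ hb₀
        rw [hft0, norm_zero] at h1
        rw [le_antisymm h1 hlam]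
        simp
    set q : ℝ := 2 * (n : ℝ) / (n - 1) with hq
    have hq2 : 2 < q := by rw [hq, lt_div_iff₀ hn1]; linarith
    have e1 : q / (q - 1) = 2 * (n : ℝ) / (n + 1) := by
      rw [hq]
      have : 2 * (n : ℝ) / (n - 1) - 1 = (n + 1) / (n - 1) := by field_simp; ring
      rw [this]
      field_simp
    have e2 : (q - 1) / q = ((n : ℝ) + 1) / (2 * n) := by
      rw [hq]
      field_simp
      ring
    have e3 : 1 - 1 / q = ((n : ℝ) + 1) / (2 * n) := by
      rw [hq]
      field_simp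
      ring
    have e4 : 2 - 3 / q = ((n : ℝ) + 3) / (2 * n) := by
      rw [hq]
      field_simp
      ring
    have e5 : 1 - 2 / q = 1 / (n : ℝ) := by
      rw [hq]
      field_simp
      ring
    have hen2 := energyQ (fun ξ => ‖ft f ξ‖ₑ ^ 2) hKm q hq2 (C * supNorm f ^ 2)
      (mul_ne_zero hC' (pow_ne_zero 2 h0)) (by
        intro g k hg hk
        rw [e1, e2]
        have h1 := h (fun y => g (-y)) k (hg.comp measurable_neg) hk
        have h2 : dualNorm (fun y => g (-y)) = dualNorm g := by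
          unfold dualNorm
          congr 1
          exact lintegral_neg_eq_self (fun y => g y ^ (2 * (n : ℝ) / (n + 1)))
        rw [h2] at h1
        unfold dualNorm at h1
        rw [← mul_assoc]
        refine le_trans (le_of_eq ?_) h1
        simp_rw [hco]
        unfold conv
        have h3 : ∀ u : E n, ‖ft f u‖ₑ ^ 2 * ∫⁻ y, g (-y) * k (u - y) =
            ∫⁻ y, ‖ft f u‖ₑ ^ 2 * (g (-y) * k (u - y)) := by
          intro u
          rw [lintegral_const_mul _ (by fun_prop)]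
        simp_rw [h3]
        symm
        rw [lintegral_lintegral_swap (by
          exact ((hKm.comp measurable_fst).mul (((hg.comp measurable_neg).comp
            measurable_snd).mul
            (hk.comp (measurable_fst.sub measurable_snd)))).aemeasurable),
          ← lintegral_neg_eq_self (fun y : E n =>
            ∫⁻ u, ‖ft f u‖ₑ ^ 2 * (g (-y) * k (u - y)))]
        refine lintegral_congr fun y => ?_
        rw [← lintegral_sub_right_eq_self _ y]
        refine lintegral_congr fun w => ?_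
        rw [sub_neg_eq_add, sub_add_cancel, neg_neg]
        ring) A B hA hB _ hlev2
    rw [e3, e4, e5] at hen2
    exact hen2
  refine ⟨hfirst, ?_⟩
  intro δ hBf hδ
  have h22 : 0 < ((n : ℝ) - 1) / n := by positivity
  rcases eq_or_ne (volume B) 0 with h0 | h0
  · rw [h0, ENNReal.zero_rpow_of_pos h22, mul_zero]
    exact zero_le
  have h1 := hfirst B hB
  set b : ℝ≥0∞ := volume B with hb
  have hX0 : b ^ (((n : ℝ) + 5) / (2 * n)) ≠ 0 := by
    rw [Ne, ENNReal.rpow_eq_zero_iff]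
    push Not
    exact ⟨fun h => absurd h h0, fun h => absurd h hBf⟩
  have hXt : b ^ (((n : ℝ) + 5) / (2 * n)) ≠ ∞ := ENNReal.rpow_ne_top_of_nonneg (by positivity) hBf
  rw [← ENNReal.mul_le_mul_iff_left hX0 hXt]
  have e1 : b ^ (((n : ℝ) - 1) / n) * b ^ (((n : ℝ) + 5) / (2 * n)) =
      (b ^ 3) ^ (((n : ℝ) + 1) / (2 * n)) := by
    rw [← ENNReal.rpow_add _ _ h0 hBf, ← ENNReal.rpow_natCast, ← ENNReal.rpow_mul]
    congr 1
    push_cast
    field_simp
    ring
  have e2 : b ^ (((n : ℝ) + 3) / (2 * n)) * b ^ (1 / (n : ℝ)) = b ^ (((n : ℝ) + 5) / (2 * n)) := by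
    rw [← ENNReal.rpow_add _ _ h0 hBf]
    congr 1
    field_simp
    ring
  calc ENNReal.ofReal lam ^ 2 * (δ : ℝ≥0∞) ^ (((n : ℝ) + 1) / (2 * n)) *
        b ^ (((n : ℝ) - 1) / n) * b ^ (((n : ℝ) + 5) / (2 * n))
      = ENNReal.ofReal lam ^ 2 * ((δ : ℝ≥0∞) ^ (((n : ℝ) + 1) / (2 * n)) *
          (b ^ 3) ^ (((n : ℝ) + 1) / (2 * n))) := by
        rw [mul_assoc, e1]; ring
    _ = ENNReal.ofReal lam ^ 2 * (δ * b ^ 3) ^ (((n : ℝ) + 1) / (2 * n)) := by
        rw [ENNReal.mul_rpow_of_nonneg _ _ (by positivity)]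
    _ ≤ ENNReal.ofReal lam ^ 2 * addEnergy B B ^ (((n : ℝ) + 1) / (2 * n)) :=
        mul_le_mul' le_rfl (ENNReal.rpow_le_rpow hδ (by positivity))
    _ ≤ _ := h1
    _ = _ := by rw [e2]

/-- **The endpoint of Stein's restriction conjecture for the sphere, tested on convolutions.** Let
`n ≥ 2`. For every `2 ≤ m ≤ n` there is `C` such that for every bounded density `f` on `S^{n-1}` and
all orthonormal vectors `v_1, ..., v_m` in `ℝ^n` the endpoint inequality holds for all convolutions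
`F * G` of functions of `(⟪v_i, ξ⟫)_i`, and for small sumsets in `ℝ^m`; and there is `C` such that
for every bounded density the endpoint bound holds for the subsets of superlevel sets with large
additive energy. -/
theorem result (n : ℕ) (hn : 2 ≤ n) :
    (∀ m : ℕ, 2 ≤ m → m ≤ n → ∃ C : ℝ≥0, ∀ (f : sphere (0 : E n) 1 → ℂ) (v : Fin m → E n),
      MemLp f ∞ (sigma n) → Orthonormal ℝ v → Convolution C f v ∧ Sumsets C f v) ∧
    ∃ C : ℝ≥0, ∀ f : sphere (0 : E n) 1 → ℂ, MemLp f ∞ (sigma n) → LargeEnergy C f := by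
  constructor
  · intro m hm hmn
    obtain ⟨C, hC, h⟩ := master n m hm hmn
    exact ⟨C, fun f v hf hv => ⟨h f hf v hv, sumsets hm C hC f v (h f hf v hv)⟩⟩
  · obtain ⟨C, hC, h⟩ := master n n hn le_rfl
    refine ⟨C, fun f hf => largeEnergy hn C hC f hf (h f hf _ ?_)⟩
    exact (EuclideanSpace.basisFun (Fin n) ℝ).orthonormal

end Pool.Agent.N773.Shelf.ConvolutionEndpoint
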